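import Mathlib
import Pool.Agent.U10.Q.A
import Pool.Agent.U332.GX.Tot

/-!
# Unit values for characters with values in the Witt vectors: the rank argument

The matrices are those of `Pool.Agent.U10.Q.A`, over the residue field of `W(𝔽̄_p)`.
-/

set_option autoImplicit false

namespace Pool.Agent.U332.LQ

open Finset Pool.Agent.U332.GX

section general

variable {R : Type} [CommRing R] [IsDomain R] {q : ℕ}

/-- the sum `∑ (2 x - q) χ(x)` -/
noncomputable def tau [NeZero q] (χ : DirichletCharacter R q) : R :=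
  ∑ x : ZMod q, ((Pool.Agent.U10.Q.A.f x : ℤ) : R) * χ x

lemma chi_zero (hq : q.Prime) (χ : DirichletCharacter R q) : χ (0 : ZMod q) = 0 := by
  have : Fact q.Prime := ⟨hq⟩
  exact χ.map_nonunit (by simp)

lemma tau_even [CharZero R] [NeZero q] (hq : q.Prime) (χ : DirichletCharacter R q)
    (h : χ (-1 : ZMod q) = 1) : tau χ = 0 := by
  have h1 : tau χ = ∑ x : ZMod q, ((Pool.Agent.U10.Q.A.f (-x) : ℤ) : R) * χ (-x) :=
    (Equiv.sum_comp (Equiv.neg (ZMod q))
      (fun x => ((Pool.Agent.U10.Q.A.f x : ℤ) : R) * χ x)).symm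
  have h2 : ∀ x : ZMod q, ((Pool.Agent.U10.Q.A.f (-x) : ℤ) : R) * χ (-x) =
      -(((Pool.Agent.U10.Q.A.f x : ℤ) : R) * χ x) := by
    intro x
    by_cases hx : x = 0
    · subst hx
      simp [chi_zero hq χ]
    · have h3 : χ (-x) = χ x := by
        rw [show -x = (-1) * x by ring, map_mul, h, one_mul]
      rw [Pool.Agent.U10.Q.A.f_neg hx, h3]
      push_cast
      ring
  rw [sum_congr rfl (fun x _ => h2 x), sum_neg_distrib] at h1
  have h4 : (2 : R) * tau χ = 0 := by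
    have : tau χ = -tau χ := h1
    linear_combination this
  rcases mul_eq_zero.mp h4 with h5 | h5
  · exact absurd h5 two_ne_zero
  · exact h5

lemma TT_eq [NeZero q] (χ : DirichletCharacter R q) :
    TT χ = ∑ x : ZMod q, ((x.val : ℕ) : R) * χ x := by
  unfold TT
  symm
  refine sum_nbij' (fun x => x.val) (fun k => (k : ZMod q)) ?_ ?_ ?_ ?_ ?_
  · intro x _
    exact mem_range.2 (ZMod.val_lt x)
  · intro k _
    exact mem_univ _
  · intro x _
    exact ZMod.natCast_zmod_val x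
  · intro k hk
    exact ZMod.val_cast_of_lt (mem_range.1 hk)
  · intro x _
    rw [ZMod.natCast_zmod_val]

lemma tau_odd [CharZero R] [NeZero q] (χ : DirichletCharacter R q) (h : χ.Odd) :
    tau χ = 2 * TT χ := by
  have hne : χ ≠ 1 := by
    rintro rfl
    have h1 : (1 : DirichletCharacter R q) (-1 : ZMod q) = 1 :=
      MulChar.one_apply (IsUnit.neg isUnit_one)
    unfold DirichletCharacter.Odd at h
    rw [h1] at h
    have h2 : (2 : R) = 0 := by linear_combination h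
    exact two_ne_zero h2
  have h0 : ∑ x : ZMod q, χ x = 0 := MulChar.sum_eq_zero_of_ne_one hne
  rw [TT_eq]
  unfold tau
  have h2 : ∀ x : ZMod q, ((Pool.Agent.U10.Q.A.f x : ℤ) : R) * χ x =
      2 * (((x.val : ℕ) : R) * χ x) - (q : R) * χ x := by
    intro x
    unfold Pool.Agent.U10.Q.A.f
    push_cast
    ring
  rw [sum_congr rfl (fun x _ => h2 x), sum_sub_distrib, ← mul_sum, ← mul_sum, h0]
  ring

lemma ortho [NeZero q] [HasEnoughRootsOfUnity R (Monoid.exponent (ZMod q)ˣ)] (hq : q.Prime)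
    {x : ZMod q} (hx : x ≠ 0) :
    ((q - 1 : ℕ) : R) * ((Pool.Agent.U10.Q.A.f x : ℤ) : R) =
      ∑ χ : DirichletCharacter R q, tau χ * χ x⁻¹ := by
  have : Fact q.Prime := ⟨hq⟩
  have h2 : ∀ χ : DirichletCharacter R q, tau χ * χ x⁻¹ =
      ∑ y : ZMod q, ((Pool.Agent.U10.Q.A.f y : ℤ) : R) * (χ x⁻¹ * χ y) := by
    intro χ
    unfold tau
    rw [sum_mul]
    refine sum_congr rfl (fun y _ => ?_)
    ring
  rw [sum_congr rfl (fun χ _ => h2 χ), sum_comm]
  have hu : IsUnit x := isUnit_iff_ne_zero.2 hx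
  have h3 : ∀ y : ZMod q, (∑ χ : DirichletCharacter R q,
      ((Pool.Agent.U10.Q.A.f y : ℤ) : R) * (χ x⁻¹ * χ y)) =
      if x = y then ((Pool.Agent.U10.Q.A.f y : ℤ) : R) * (q.totient : R) else 0 := by
    intro y
    rw [← mul_sum, DirichletCharacter.sum_char_inv_mul_char_eq R hu y]
    split_ifs <;> simp
  rw [sum_congr rfl (fun y _ => h3 y), sum_ite_eq]
  simp only [mem_univ, if_true]
  rw [Nat.totient_prime hq]
  ring

lemma jump [NeZero q] [HasEnoughRootsOfUnity R (Monoid.exponent (ZMod q)ˣ)] (hq : q.Prime)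
    {c b : ℕ} (hc1 : 1 ≤ c) (hcq : c < q) (hb2 : 2 ≤ b) (hbq : b < q) :
    ((q - 1 : ℕ) : R) * (2 * (c : R) - 2 * (q : R) * (Pool.Agent.U10.Q.D q c b : R)) =
      ∑ χ : DirichletCharacter R q, tau χ * (χ (b : ZMod q)⁻¹ -
        χ ((b - 1 : ℕ) : ZMod q)⁻¹) * χ (c : ZMod q)⁻¹ := by
  have : Fact q.Prime := ⟨hq⟩
  have hc : (c : ZMod q) ≠ 0 := by
    intro h
    rw [ZMod.natCast_eq_zero_iff] at h
    exact absurd (Nat.le_of_dvd hc1 h) (by omega)
  have hb : (b : ZMod q) ≠ 0 := by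
    intro h
    rw [ZMod.natCast_eq_zero_iff] at h
    exact absurd (Nat.le_of_dvd (by omega) h) (by omega)
  have hb' : ((b - 1 : ℕ) : ZMod q) ≠ 0 := by
    intro h
    rw [ZMod.natCast_eq_zero_iff] at h
    exact absurd (Nat.le_of_dvd (by omega) h) (by omega)
  have h1 := ortho (R := R) hq (mul_ne_zero hc hb)
  have h2 := ortho (R := R) hq (mul_ne_zero hc hb')
  have h3 : ((2 * (c : ℤ) - 2 * (q : ℤ) * (Pool.Agent.U10.Q.D q c b : ℤ) : ℤ) : R) =
      2 * (c : R) - 2 * (q : R) * (Pool.Agent.U10.Q.D q c b : R) := by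
    push_cast
    ring
  rw [← h3, ← Pool.Agent.U10.Q.A.f_diff c b (by omega)]
  push_cast
  rw [mul_sub, h1, h2, ← sum_sub_distrib]
  refine sum_congr rfl (fun χ _ => ?_)
  rw [mul_inv, mul_inv, map_mul, map_mul]
  ring

end general

variable (p : ℕ) [hp : Fact p.Prime]

open Classical in
/-- The number of the odd characters modulo `q` whose first moment is a unit bounds the size of a
triangular system of jumps. -/
theorem rank_le (hp2 : p ≠ 2) {q : ℕ} (hq : q.Prime) (hqp : q ≠ p) (hpq : ¬ p ∣ q - 1)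
    (T : Finset ℕ) (β : ℕ → ℕ)
    (hT : ∀ c ∈ T, 1 ≤ c ∧ c < q ∧ 2 ≤ β c ∧ β c < q ∧ Pool.Agent.U10.Q.D q c (β c) = 1 ∧
      ∀ a ∈ T, a < c → Pool.Agent.U10.Q.D q a (β c) = 0) :
    T.card ≤ (univ.filter fun χ : DirichletCharacter (WW p) q => χ.Odd ∧ IsUnit (TT χ)).card + 1 := by
  have hNZ : NeZero q := ⟨hq.ne_zero⟩
  have hFq : Fact q.Prime := ⟨hq⟩
  have hne : NeZero (Monoid.exponent (ZMod q)ˣ) := ⟨Monoid.exponent_ne_zero_of_finite⟩
  have htot : ¬ p ∣ q.totient := by rwa [Nat.totient_prime hq]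
  have := enough p (Monoid.exponent (ZMod q)ˣ) (exp_not_dvd p htot)
  set ρ : WW p →+* IsLocalRing.ResidueField (WW p) := IsLocalRing.residue (WW p) with hρ
  have hρu : ∀ x, ρ x ≠ 0 ↔ IsUnit x := fun x => IsLocalRing.residue_ne_zero_iff_isUnit x
  have hnat : ∀ n : ℕ, ¬ p ∣ n → IsUnit (n : WW p) := by
    intro n hn
    rcases dich p (n : WW p) with h | h
    · exact h
    · exact absurd (nat_dvd p n h) hn
  have hqu : IsUnit (q : WW p) := hnat q (fun h => hqp ((Nat.prime_dvd_prime_iff_eq hp.out hq).1 h).symm)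
  have h2u : IsUnit ((2 : ℕ) : WW p) :=
    hnat 2 (fun h => hp2 ((Nat.prime_dvd_prime_iff_eq hp.out Nat.prime_two).1 h))
  have hq1u : IsUnit ((q - 1 : ℕ) : WW p) := hnat (q - 1) hpq
  set S : Finset (DirichletCharacter (WW p) q) := univ.filter (fun χ => ρ (tau χ) ≠ 0) with hS
  have hcard : S.card ≤
      (univ.filter fun χ : DirichletCharacter (WW p) q => χ.Odd ∧ IsUnit (TT χ)).card := by
    apply card_le_card
    intro χ hχ
    have hχ' : ρ (tau χ) ≠ 0 := by
      simpa [hS] using hχ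
    have hodd : χ.Odd := by
      rcases χ.even_or_odd with h | h
      · exfalso
        apply hχ'
        rw [tau_even hq χ h, map_zero]
      · exact h
    rw [mem_filter]
    refine ⟨mem_univ _, hodd, ?_⟩
    have h1 := (hρu _).1 hχ'
    rw [tau_odd χ hodd] at h1
    exact isUnit_of_mul_isUnit_right h1
  refine le_trans ?_ (Nat.add_le_add_right hcard 1)
  let M : Matrix T T (IsLocalRing.ResidueField (WW p)) :=
    fun i j => ((Pool.Agent.U10.Q.D q j.1 (β i.1) : ℕ) : _)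
  let A : Matrix T (Option S) (IsLocalRing.ResidueField (WW p)) := fun i o =>
    match o with
    | none => 1
    | some χ => -(ρ (tau χ.1) * (ρ (χ.1 ((β i.1 : ℕ) : ZMod q)⁻¹) -
        ρ (χ.1 ((β i.1 - 1 : ℕ) : ZMod q)⁻¹)))
  let B : Matrix (Option S) T (IsLocalRing.ResidueField (WW p)) := fun o j =>
    match o with
    | none => ((q - 1 : ℕ) : (IsLocalRing.ResidueField (WW p))) *
        (2 * (j.1 : (IsLocalRing.ResidueField (WW p))))
    | some χ => ρ (χ.1 ((j.1 : ℕ) : ZMod q)⁻¹)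
  set u : (IsLocalRing.ResidueField (WW p)) := ((q - 1 : ℕ) : (IsLocalRing.ResidueField (WW p))) *
    (2 * (q : (IsLocalRing.ResidueField (WW p)))) with hu
  have hu0 : u ≠ 0 := by
    have h1 : ((q - 1 : ℕ) : (IsLocalRing.ResidueField (WW p))) ≠ 0 := by
      have h := (hρu _).2 hq1u
      rwa [map_natCast] at h
    have h2 : (q : (IsLocalRing.ResidueField (WW p))) ≠ 0 := by
      have h := (hρu _).2 hqu
      rwa [map_natCast] at h
    have h3 : (2 : (IsLocalRing.ResidueField (WW p))) ≠ 0 := by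
      have h := (hρu _).2 h2u
      rwa [map_natCast, Nat.cast_ofNat] at h
    exact mul_ne_zero h1 (mul_ne_zero h3 h2)
  have hAB : A * B = u • M := by
    ext i j
    obtain ⟨hi1, hiq, hi2, hibq, -, -⟩ := hT i.1 i.2
    obtain ⟨hj1, hjq, -, -, -, -⟩ := hT j.1 j.2
    rw [Matrix.mul_apply, Fintype.sum_option, Matrix.smul_apply, smul_eq_mul]
    have hj := congrArg ρ (jump (R := WW p) hq hj1 hjq hi2 hibq)
    rw [map_mul, map_natCast, map_sub, map_mul, map_mul, map_mul, map_natCast, map_natCast,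
      map_natCast, map_sum] at hj
    have h2 : ρ 2 = 2 := map_ofNat ρ 2
    rw [h2] at hj
    have hsum : (∑ χ : DirichletCharacter (WW p) q, ρ (tau χ * (χ ((β i.1 : ℕ) : ZMod q)⁻¹ -
        χ ((β i.1 - 1 : ℕ) : ZMod q)⁻¹) * χ ((j.1 : ℕ) : ZMod q)⁻¹)) =
        ∑ χ : S, ρ (tau χ.1) * (ρ (χ.1 ((β i.1 : ℕ) : ZMod q)⁻¹) -
        ρ (χ.1 ((β i.1 - 1 : ℕ) : ZMod q)⁻¹)) * ρ (χ.1 ((j.1 : ℕ) : ZMod q)⁻¹) := by
      rw [Finset.sum_coe_sort S (fun χ => ρ (tau χ) * (ρ (χ ((β i.1 : ℕ) : ZMod q)⁻¹) -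
        ρ (χ ((β i.1 - 1 : ℕ) : ZMod q)⁻¹)) * ρ (χ ((j.1 : ℕ) : ZMod q)⁻¹))]
      rw [hS, sum_filter_of_ne]
      · refine sum_congr rfl (fun χ _ => ?_)
        rw [map_mul, map_mul, map_sub]
      · intro χ _ hne h0
        apply hne
        rw [h0, zero_mul, zero_mul]
    rw [hsum] at hj
    show (1 : (IsLocalRing.ResidueField (WW p))) *
      (((q - 1 : ℕ) : (IsLocalRing.ResidueField (WW p))) *
        (2 * (j.1 : (IsLocalRing.ResidueField (WW p))))) +
      ∑ χ : S, (-(ρ (tau χ.1) * (ρ (χ.1 ((β i.1 : ℕ) : ZMod q)⁻¹) -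
        ρ (χ.1 ((β i.1 - 1 : ℕ) : ZMod q)⁻¹)))) * ρ (χ.1 ((j.1 : ℕ) : ZMod q)⁻¹) =
      u * ((Pool.Agent.U10.Q.D q j.1 (β i.1) : ℕ) : (IsLocalRing.ResidueField (WW p)))
    have hneg : (∑ χ : S, (-(ρ (tau χ.1) * (ρ (χ.1 ((β i.1 : ℕ) : ZMod q)⁻¹) -
        ρ (χ.1 ((β i.1 - 1 : ℕ) : ZMod q)⁻¹)))) * ρ (χ.1 ((j.1 : ℕ) : ZMod q)⁻¹)) =
        -∑ χ : S, ρ (tau χ.1) * (ρ (χ.1 ((β i.1 : ℕ) : ZMod q)⁻¹) -
        ρ (χ.1 ((β i.1 - 1 : ℕ) : ZMod q)⁻¹)) * ρ (χ.1 ((j.1 : ℕ) : ZMod q)⁻¹) := by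
      rw [← sum_neg_distrib]
      refine sum_congr rfl (fun χ _ => ?_)
      ring
    rw [hneg, ← hj, hu]
    ring
  have hM : M.det = 1 := by
    have htri : M.BlockTriangular id := by
      intro i j hij
      obtain ⟨-, -, -, -, -, h⟩ := hT i.1 i.2
      show ((Pool.Agent.U10.Q.D q j.1 (β i.1) : ℕ) : (IsLocalRing.ResidueField (WW p))) = 0
      rw [h j.1 j.2 hij, Nat.cast_zero]
    rw [Matrix.det_of_upperTriangular htri]
    refine prod_eq_one (fun i _ => ?_)
    obtain ⟨-, -, -, -, h, -⟩ := hT i.1 i.2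
    show ((Pool.Agent.U10.Q.D q i.1 (β i.1) : ℕ) : (IsLocalRing.ResidueField (WW p))) = 1
    rw [h, Nat.cast_one]
  have hunit : IsUnit (A * B) := by
    rw [hAB, Matrix.isUnit_iff_isUnit_det, Matrix.det_smul, hM, mul_one]
    exact (IsUnit.mk0 u hu0).pow _
  have h1 := Matrix.rank_of_isUnit (A * B) hunit
  have h2 := (Matrix.rank_mul_le_left A B).trans (Matrix.rank_le_card_width A)
  rw [h1, Fintype.card_option, Fintype.card_coe, Fintype.card_coe] at h2
  exact h2

open Classical in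
/-- The characters with `χ(p) = 1`. -/
theorem card_trivial_at {q : ℕ} (hq : q.Prime) (hqp : q ≠ p) (hpq : ¬ p ∣ q - 1) :
    (haveI : NeZero q := ⟨hq.ne_zero⟩;
      (univ.filter fun χ : DirichletCharacter (WW p) q => χ ((p : ℕ) : ZMod q) = 1).card) *
      orderOf ((p : ℕ) : ZMod q) = q - 1 := by
  have hNZ : NeZero q := ⟨hq.ne_zero⟩
  have hFq : Fact q.Prime := ⟨hq⟩
  have hne : NeZero (Monoid.exponent (ZMod q)ˣ) := ⟨Monoid.exponent_ne_zero_of_finite⟩
  have htot : ¬ p ∣ q.totient := by rwa [Nat.totient_prime hq]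
  have := enough p (Monoid.exponent (ZMod q)ˣ) (exp_not_dvd p htot)
  set n := orderOf ((p : ℕ) : ZMod q) with hn
  have hp0 : ((p : ℕ) : ZMod q) ≠ 0 := by
    intro h
    rw [ZMod.natCast_eq_zero_iff] at h
    exact hqp ((Nat.prime_dvd_prime_iff_eq hq hp.out).1 h)
  have hn0 : 0 < n := by
    rw [hn]
    apply orderOf_pos_iff.2
    rw [isOfFinOrder_iff_pow_eq_one]
    exact ⟨q - 1, by have := hq.two_le; omega, ZMod.pow_card_sub_one_eq_one hp0⟩
  have h1 : ((((univ.filter fun χ : DirichletCharacter (WW p) q =>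
      χ ((p : ℕ) : ZMod q) = 1).card * n : ℕ)) : WW p) = ((q - 1 : ℕ) : WW p) := by
    have h2 : ∀ χ : DirichletCharacter (WW p) q, (∑ j ∈ range n, χ (((p : ℕ) : ZMod q) ^ j)) =
        if χ ((p : ℕ) : ZMod q) = 1 then (n : WW p) else 0 := by
      intro χ
      simp only [map_pow]
      split_ifs with h
      · rw [h]
        simp
      · have h3 : (∑ j ∈ range n, χ ((p : ℕ) : ZMod q) ^ j) * (χ ((p : ℕ) : ZMod q) - 1) = 0 := by
          rw [geom_sum_mul, ← map_pow, hn, pow_orderOf_eq_one, map_one, sub_self]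
        rcases mul_eq_zero.mp h3 with h4 | h4
        · exact h4
        · exact absurd (sub_eq_zero.mp h4) h
    have h3 : (∑ χ : DirichletCharacter (WW p) q, ∑ j ∈ range n, χ (((p : ℕ) : ZMod q) ^ j)) =
        ((univ.filter fun χ : DirichletCharacter (WW p) q =>
          χ ((p : ℕ) : ZMod q) = 1).card : WW p) * n := by
      rw [sum_congr rfl (fun χ _ => h2 χ), ← sum_filter, sum_const, nsmul_eq_mul]
    rw [sum_comm] at h3
    have h4 : ∀ j ∈ range n, (∑ χ : DirichletCharacter (WW p) q, χ (((p : ℕ) : ZMod q) ^ j)) =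
        if j = 0 then ((q - 1 : ℕ) : WW p) else 0 := by
      intro j hj
      rw [DirichletCharacter.sum_characters_eq (WW p), Nat.totient_prime hq]
      congr 1
      apply propext
      constructor
      · intro h
        by_contra h0
        exact absurd (orderOf_le_of_pow_eq_one (Nat.pos_of_ne_zero h0) h)
          (by have := mem_range.1 hj; omega)
      · rintro rfl
        exact pow_zero _
    rw [sum_congr rfl h4, sum_ite_eq' (range n) 0] at h3
    rw [if_pos (mem_range.2 hn0)] at h3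
    push_cast
    rw [← h3]
  exact_mod_cast h1

end Pool.Agent.U332.LQ
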