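import Mathlib
import Pool.Agent.U10.Q.B
import Pool.Agent.U10.Q.C
import Pool.Agent.U332.LQ.W

/-!
# Many unit values `L_p(0, ω χ)` for the odd characters `χ` modulo a prime `q`, for fixed `p`
-/

set_option autoImplicit false

namespace Pool.Agent.U332.LQ

open Finset Pool.Agent.U332.GX Pool.Agent.U10.Q

open Classical in
/-- the number of the odd characters modulo `q` with unit value -/
noncomputable def good (p : ℕ) [Fact p.Prime] (q : ℕ) : ℕ :=
  (univ.filter fun χ : DirichletCharacter (WW p) q => χ.Odd ∧ UnitVal p χ).card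

lemma main1 : ∃ κ : ℝ, 0 < κ ∧ ∃ Q : ℕ, ∀ (p : ℕ) [Fact p.Prime] (q : ℕ), p ≠ 2 → q.Prime →
    Q ≤ q → q ≠ p → ¬ p ∣ q - 1 →
      κ * (q : ℝ) ^ ((2 : ℝ) / 3) / Real.log q ≤
        (good p q : ℝ) + ((q : ℝ) - 1) / orderOf ((p : ℕ) : ZMod q) := by
  classical
  obtain ⟨κ, hκ, Q, hQ⟩ := Pool.Agent.U10.Q.C.proof
  -- `κ q ^ (2/3) / log q → ∞`
  have hlim : ∃ Q₁ : ℕ, ∀ q : ℕ, Q₁ ≤ q → 1 ≤ κ / 2 * (q : ℝ) ^ ((2 : ℝ) / 3) / Real.log q := by
    have h := (isLittleO_log_rpow_atTop (show (0 : ℝ) < 2 / 3 by norm_num)).bound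
      (show 0 < κ / 2 by positivity)
    have h1 := tendsto_natCast_atTop_atTop (R := ℝ) |>.eventually h
    obtain ⟨Q₁, hQ₁⟩ := Filter.eventually_atTop.1 (h1.and (Filter.eventually_ge_atTop 2))
    refine ⟨Q₁, fun q hq => ?_⟩
    obtain ⟨h2, h3⟩ := hQ₁ q hq
    have hq2 : (2 : ℝ) ≤ q := by exact_mod_cast h3
    have hlog : 0 < Real.log q := Real.log_pos (by linarith)
    rw [le_div_iff₀ hlog, one_mul]
    rw [Real.norm_of_nonneg hlog.le, Real.norm_of_nonneg (by positivity)] at h2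
    exact h2
  obtain ⟨Q₁, hQ₁⟩ := hlim
  refine ⟨κ / 2, by positivity, max Q Q₁, ?_⟩
  intro p hp q hp2 hq hQq hqp hpq
  have h1 := hQ q hq (le_trans (le_max_left _ _) hQq)
  have h2 := hQ₁ q (le_trans (le_max_right _ _) hQq)
  set T : Finset ℕ := (range q).filter (fun c => Rep q c) with hT
  have hTc : {c : ℕ | c < q ∧ Rep q c}.ncard = T.card := by
    rw [← Set.ncard_coe_finset]
    congr 1
    ext c
    simp [hT]
  have hbeta : ∀ c : ℕ, ∃ b : ℕ, c < q → Rep q c → (2 ≤ b ∧ b < q ∧ D q c b = 1 ∧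
      ∀ a, a < c → D q a b = 0) := by
    intro c
    by_cases hc : c < q ∧ Rep q c
    · obtain ⟨b, hb⟩ := Pool.Agent.U10.Q.B.proof q c hq hc.1 hc.2
      exact ⟨b, fun _ _ => hb⟩
    · exact ⟨0, fun h1 h2 => absurd ⟨h1, h2⟩ hc⟩
  choose β hβ using hbeta
  have h3 := rank_le p hp2 hq hqp hpq T β (by
    intro c hc
    simp only [hT, mem_filter, mem_range] at hc
    obtain ⟨hb1, hb2, hb3, hb4⟩ := hβ c hc.1 hc.2
    refine ⟨?_, hc.1, hb1, hb2, hb3, fun a _ ha => hb4 a ha⟩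
    rcases Nat.eq_zero_or_pos c with h0 | h0
    · subst h0
      simp [D] at hb3
    · exact h0)
  -- the two kinds of characters
  have hNZ : NeZero q := ⟨hq.ne_zero⟩
  have hFq : Fact q.Prime := ⟨hq⟩
  have h4 : (univ.filter fun χ : DirichletCharacter (WW p) q => χ.Odd ∧ IsUnit (TT χ)).card ≤
      good p q + (univ.filter fun χ : DirichletCharacter (WW p) q =>
        χ ((p : ℕ) : ZMod q) = 1).card := by
    unfold good
    refine le_trans (card_le_card ?_) (card_union_le _ _)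
    intro χ hχ
    rw [mem_filter] at hχ
    obtain ⟨-, hodd, hTT⟩ := hχ
    rw [mem_union]
    by_cases h : χ ((p : ℕ) : ZMod q) = 1
    · right
      rw [mem_filter]
      exact ⟨mem_univ _, h⟩
    · left
      rw [mem_filter]
      refine ⟨mem_univ _, hodd, ?_⟩
      have hp0 : ((p : ℕ) : ZMod q) ≠ 0 := by
        intro h
        rw [ZMod.natCast_eq_zero_iff] at h
        exact hqp ((Nat.prime_dvd_prime_iff_eq hq hp.out).1 h)
      have h5 : IsUnit (1 - χ ((p : ℕ) : ZMod q)) := by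
        apply one_sub_unit p (q - 1) hpq _ _ h
        rw [← map_pow, ZMod.pow_card_sub_one_eq_one hp0, map_one]
      have hqu : IsUnit (q : WW p) := by
        rcases dich p (q : WW p) with h | h
        · exact h
        · exact absurd ((Nat.prime_dvd_prime_iff_eq hp.out hq).1 (nat_dvd p q h)).symm hqp
      obtain ⟨w, hw⟩ := hqu
      obtain ⟨v, hv⟩ := ((h5.mul hTT).neg)
      refine ⟨w⁻¹ * v, ?_⟩
      rw [Units.val_mul, ← mul_assoc, ← hw, Units.mul_inv, one_mul, hv]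
  have h6 := card_trivial_at p hq hqp hpq
  have hn0 : 0 < orderOf ((p : ℕ) : ZMod q) := by
    rcases Nat.eq_zero_or_pos (orderOf ((p : ℕ) : ZMod q)) with h | h
    · rw [h, mul_zero] at h6
      have := hq.two_le
      omega
    · exact h
  have h7 : (((univ.filter fun χ : DirichletCharacter (WW p) q =>
        χ ((p : ℕ) : ZMod q) = 1).card : ℕ) : ℝ) =
      ((q : ℝ) - 1) / orderOf ((p : ℕ) : ZMod q) := by
    rw [eq_div_iff (by positivity)]
    have h8 : ((((univ.filter fun χ : DirichletCharacter (WW p) q =>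
        χ ((p : ℕ) : ZMod q) = 1).card * orderOf ((p : ℕ) : ZMod q) : ℕ)) : ℝ) =
        ((q - 1 : ℕ) : ℝ) := by exact_mod_cast h6
    rw [Nat.cast_mul, Nat.cast_sub hq.one_lt.le, Nat.cast_one] at h8
    exact h8
  rw [hTc] at h1
  have h9 : (T.card : ℝ) ≤ (good p q : ℝ) + ((univ.filter fun χ : DirichletCharacter (WW p) q =>
        χ ((p : ℕ) : ZMod q) = 1).card : ℕ) + 1 := by
    exact_mod_cast h3.trans (Nat.add_le_add_right h4 1)
  rw [h7] at h9
  have h10 : κ * (q : ℝ) ^ ((2 : ℝ) / 3) / Real.log q =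
      2 * (κ / 2 * (q : ℝ) ^ ((2 : ℝ) / 3) / Real.log q) := by ring
  linarith

/-- few primes modulo which the order of `p` is small -/
lemma few_small_order (p : ℕ) (hp : p.Prime) (N X : ℕ) :
    ((Icc 1 X).filter fun q => q.Prime ∧ q ≠ p ∧ orderOf ((p : ℕ) : ZMod q) ≤ N).card ≤ p * N ^ 2 := by
  classical
  have h1 : ((Icc 1 X).filter fun q => q.Prime ∧ q ≠ p ∧ orderOf ((p : ℕ) : ZMod q) ≤ N) ⊆
      (Icc 1 N).biUnion (fun n => (p ^ n - 1).primeFactors) := by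
    intro q hq
    rw [mem_filter] at hq
    obtain ⟨-, hqp, hne, hN⟩ := hq
    have hF : Fact q.Prime := ⟨hqp⟩
    have hp0 : ((p : ℕ) : ZMod q) ≠ 0 := by
      intro h
      rw [ZMod.natCast_eq_zero_iff] at h
      exact hne ((Nat.prime_dvd_prime_iff_eq hqp hp).1 h)
    have hn0 : 0 < orderOf ((p : ℕ) : ZMod q) := by
      apply orderOf_pos_iff.2
      rw [isOfFinOrder_iff_pow_eq_one]
      exact ⟨q - 1, by have := hqp.two_le; omega, ZMod.pow_card_sub_one_eq_one hp0⟩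
    rw [mem_biUnion]
    refine ⟨orderOf ((p : ℕ) : ZMod q), mem_Icc.2 ⟨hn0, hN⟩, ?_⟩
    have h2 : 1 < p ^ orderOf ((p : ℕ) : ZMod q) := Nat.one_lt_pow hn0.ne' hp.one_lt
    rw [Nat.mem_primeFactors]
    refine ⟨hqp, ?_, by omega⟩
    rw [← ZMod.natCast_eq_zero_iff, Nat.cast_sub h2.le, Nat.cast_pow, pow_orderOf_eq_one,
      Nat.cast_one, sub_self]
  refine le_trans (card_le_card h1) (le_trans card_biUnion_le ?_)
  have h3 : ∀ n ∈ Icc 1 N, (p ^ n - 1).primeFactors.card ≤ p * N := by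
    intro n hn
    rw [mem_Icc] at hn
    have h4 : 1 < p ^ n := Nat.one_lt_pow (by omega) hp.one_lt
    have h5 : 2 ^ (p ^ n - 1).primeFactors.card ≤ p ^ n - 1 := by
      calc 2 ^ (p ^ n - 1).primeFactors.card ≤ ∏ l ∈ (p ^ n - 1).primeFactors, l :=
            pow_card_le_prod _ _ _ (fun l hl => (Nat.prime_of_mem_primeFactors hl).two_le)
        _ ≤ p ^ n - 1 := Nat.le_of_dvd (by omega) (Nat.prod_primeFactors_dvd _)
    have h6 : p ^ n ≤ 2 ^ (p * n) := by
      rw [pow_mul]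
      exact Nat.pow_le_pow_left Nat.lt_two_pow_self.le n
    have h7 : 2 ^ (p ^ n - 1).primeFactors.card < 2 ^ (p * n) := by omega
    have h8 := (Nat.pow_lt_pow_iff_right (by norm_num : 1 < 2)).1 h7
    exact h8.le.trans (Nat.mul_le_mul_left p hn.2)
  refine le_trans (sum_le_sum h3) ?_
  rw [sum_const, Nat.card_Icc, smul_eq_mul]
  have : N + 1 - 1 = N := by omega
  rw [this]
  nlinarith

theorem main : ∃ κ : ℝ, 0 < κ ∧ (∃ Q : ℕ,
    (∀ (p : ℕ) [Fact p.Prime] (q : ℕ), p ≠ 2 → q.Prime → Q ≤ q → q ≠ p → ¬ p ∣ q - 1 →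
      κ * (q : ℝ) ^ ((2 : ℝ) / 3) / Real.log q ≤
        (good p q : ℝ) + ((q : ℝ) - 1) / orderOf ((p : ℕ) : ZMod q))) ∧
    (∀ (p : ℕ) [Fact p.Prime], p ≠ 2 → ∀ ε : ℝ, 0 < ε → ∃ C : ℝ, ∀ X : ℕ,
      (((Icc 1 X).filter fun q : ℕ => q.Prime ∧ ¬ p ∣ q - 1 ∧
        (good p q : ℝ) < κ * (q : ℝ) ^ ((2 : ℝ) / 3) / Real.log q).card : ℝ) ≤
        C * (X : ℝ) ^ (2 / 3 + ε)) := by
  classical
  obtain ⟨κ, hκ, Q, hQ⟩ := main1
  refine ⟨κ / 2, by positivity, ⟨Q, ?_⟩, ?_⟩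
  · intro p hp q hp2 hq hQq hqp hpq
    refine le_trans ?_ (hQ p q hp2 hq hQq hqp hpq)
    have hq2 : (2 : ℝ) ≤ q := by exact_mod_cast hq.two_le
    have hlog : 0 < Real.log q := Real.log_pos (by linarith)
    have h0 : 0 ≤ (q : ℝ) ^ ((2 : ℝ) / 3) / Real.log q := by positivity
    have h1 : κ * (q : ℝ) ^ ((2 : ℝ) / 3) / Real.log q =
      2 * (κ / 2 * (q : ℝ) ^ ((2 : ℝ) / 3) / Real.log q) := by ring
    have h2 : 0 ≤ κ / 2 * (q : ℝ) ^ ((2 : ℝ) / 3) / Real.log q := by positivity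
    linarith
  · intro p hp hp2 ε hε
    -- `log q ≤ (κ / 2) q ^ (ε / 2)` for large `q`
    have hlim : ∃ Q₁ : ℕ, ∀ q : ℕ, Q₁ ≤ q → Real.log q ≤ κ / 2 * (q : ℝ) ^ (ε / 2) := by
      have h := (isLittleO_log_rpow_atTop (show (0 : ℝ) < ε / 2 by positivity)).bound
        (show 0 < κ / 2 by positivity)
      have h1 := tendsto_natCast_atTop_atTop (R := ℝ) |>.eventually h
      obtain ⟨Q₁, hQ₁⟩ := Filter.eventually_atTop.1 (h1.and (Filter.eventually_ge_atTop 2))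
      refine ⟨Q₁, fun q hq => ?_⟩
      obtain ⟨h2, h3⟩ := hQ₁ q hq
      have hq2 : (2 : ℝ) ≤ q := by exact_mod_cast h3
      have hlog : 0 < Real.log q := Real.log_pos (by linarith)
      rw [Real.norm_of_nonneg hlog.le, Real.norm_of_nonneg (by positivity)] at h2
      exact h2
    obtain ⟨Q₁, hQ₁⟩ := hlim
    set Q₂ := max Q Q₁ with hQ₂
    refine ⟨(Q₂ : ℝ) + 1 + p, fun X => ?_⟩
    rcases Nat.eq_zero_or_pos X with hX0 | hX0
    · subst hX0
      simp
      positivity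
    have hX1 : (1 : ℝ) ≤ X := by exact_mod_cast hX0
    set N : ℕ := ⌊(X : ℝ) ^ (1 / 3 + ε / 2)⌋₊ with hN
    have hsub : ((Icc 1 X).filter fun q : ℕ => q.Prime ∧ ¬ p ∣ q - 1 ∧
        (good p q : ℝ) < κ / 2 * (q : ℝ) ^ ((2 : ℝ) / 3) / Real.log q) ⊆
        (range Q₂ ∪ {p}) ∪
        ((Icc 1 X).filter fun q => q.Prime ∧ q ≠ p ∧ orderOf ((p : ℕ) : ZMod q) ≤ N) := by
      intro q hq
      rw [mem_filter] at hq
      obtain ⟨hqX, hqp, hpq, hlt⟩ := hq
      rw [mem_union, mem_union]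
      by_cases h1 : q < Q₂
      · left; left
        exact mem_range.2 h1
      by_cases h2 : q = p
      · left; right
        exact mem_singleton.2 h2
      right
      rw [mem_filter]
      refine ⟨hqX, hqp, h2, ?_⟩
      by_contra hgt
      push Not at hgt h1
      have h3 := hQ p q hp2 hqp ((le_max_left _ _).trans h1) h2 hpq
      have h4 := hQ₁ q ((le_max_right _ _).trans h1)
      have hq2 : (2 : ℝ) ≤ q := by exact_mod_cast hqp.two_le
      have hq0 : (0 : ℝ) < q := by linarith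
      have hlog : 0 < Real.log q := Real.log_pos (by linarith)
      -- the order is large
      have h5 : (q : ℝ) ^ (1 / 3 + ε / 2) ≤ orderOf ((p : ℕ) : ZMod q) := by
        have h6 : (X : ℝ) ^ (1 / 3 + ε / 2) < (N : ℝ) + 1 := Nat.lt_floor_add_one _
        have h7 : ((N + 1 : ℕ) : ℝ) ≤ orderOf ((p : ℕ) : ZMod q) := by exact_mod_cast hgt
        have h8 : (q : ℝ) ^ (1 / 3 + ε / 2) ≤ (X : ℝ) ^ (1 / 3 + ε / 2) := by
          apply Real.rpow_le_rpow hq0.le _ (by positivity)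
          exact_mod_cast (mem_Icc.1 hqX).2
        push_cast at h7
        linarith
      have h6 : ((q : ℝ) - 1) / orderOf ((p : ℕ) : ZMod q) ≤ (q : ℝ) ^ (2 / 3 - ε / 2) := by
        have h7 : (0 : ℝ) < (q : ℝ) ^ (1 / 3 + ε / 2) := by positivity
        calc ((q : ℝ) - 1) / orderOf ((p : ℕ) : ZMod q) ≤ q / (q : ℝ) ^ (1 / 3 + ε / 2) := by
              apply div_le_div₀ hq0.le (by linarith) h7 h5
          _ = (q : ℝ) ^ (2 / 3 - ε / 2) := by
              rw [show (2 / 3 - ε / 2 : ℝ) = 1 - (1 / 3 + ε / 2) by ring, Real.rpow_sub hq0,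
                Real.rpow_one]
      have h7 : (q : ℝ) ^ (2 / 3 - ε / 2) ≤ κ / 2 * (q : ℝ) ^ ((2 : ℝ) / 3) / Real.log q := by
        rw [le_div_iff₀ hlog]
        calc (q : ℝ) ^ (2 / 3 - ε / 2) * Real.log q ≤
              (q : ℝ) ^ (2 / 3 - ε / 2) * (κ / 2 * (q : ℝ) ^ (ε / 2)) := by
              apply mul_le_mul_of_nonneg_left h4 (by positivity)
          _ = κ / 2 * ((q : ℝ) ^ (2 / 3 - ε / 2) * (q : ℝ) ^ (ε / 2)) := by ring
          _ = κ / 2 * (q : ℝ) ^ ((2 : ℝ) / 3) := by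
              rw [← Real.rpow_add hq0]
              congr 2
              ring
      have h8 : κ * (q : ℝ) ^ ((2 : ℝ) / 3) / Real.log q =
        2 * (κ / 2 * (q : ℝ) ^ ((2 : ℝ) / 3) / Real.log q) := by ring
      linarith
    have hcard := card_le_card hsub
    have h1 : ((range Q₂ ∪ {p}) ∪
        ((Icc 1 X).filter fun q => q.Prime ∧ q ≠ p ∧ orderOf ((p : ℕ) : ZMod q) ≤ N)).card ≤
        (Q₂ + 1) + p * N ^ 2 := by
      refine le_trans (card_union_le _ _) (Nat.add_le_add ?_ (few_small_order p hp.out N X))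
      refine le_trans (card_union_le _ _) ?_
      rw [card_range, card_singleton]
    have h2 : ((((Icc 1 X).filter fun q : ℕ => q.Prime ∧ ¬ p ∣ q - 1 ∧
        (good p q : ℝ) < κ / 2 * (q : ℝ) ^ ((2 : ℝ) / 3) / Real.log q).card : ℕ) : ℝ) ≤
        ((Q₂ : ℝ) + 1) + p * (N : ℝ) ^ 2 := by exact_mod_cast hcard.trans h1
    refine le_trans h2 ?_
    have h3 : (N : ℝ) ≤ (X : ℝ) ^ (1 / 3 + ε / 2) := Nat.floor_le (by positivity)
    have h4 : (N : ℝ) ^ 2 ≤ (X : ℝ) ^ (2 / 3 + ε) := by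
      calc (N : ℝ) ^ 2 ≤ ((X : ℝ) ^ (1 / 3 + ε / 2)) ^ 2 := by
            apply pow_le_pow_left₀ (by positivity) h3
        _ = (X : ℝ) ^ (2 / 3 + ε) := by
            rw [← Real.rpow_natCast, ← Real.rpow_mul (by positivity)]
            congr 1
            push_cast
            ring
    have h5 : (1 : ℝ) ≤ (X : ℝ) ^ (2 / 3 + ε) := Real.one_le_rpow hX1 (by positivity)
    have h6 : (0 : ℝ) ≤ (Q₂ : ℝ) + 1 := by positivity
    have h7 : (0 : ℝ) ≤ p := by positivity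
    nlinarith [mul_le_mul_of_nonneg_left h4 h7, mul_le_mul_of_nonneg_left h5 h6]

end Pool.Agent.U332.LQ
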